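import Pool.Agent.C4U.Stmts

set_option autoImplicit false

namespace Pool.Agent.C4U.H98

open Filter Topology

/-- **AN2** -/
theorem an2 : An2Stmt := by
  intro k
  have ht := tendsto_pow_const_div_const_pow_of_one_lt (k ^ 2) (show (1 : ℝ) < 4 by norm_num)
  obtain ⟨B, hB⟩ := ht.bddAbove_range
  have hB' : ∀ n : ℕ, (n : ℝ) ^ (k ^ 2) ≤ B * 4 ^ n := by
    intro n
    have h1 : (n : ℝ) ^ (k ^ 2) / 4 ^ n ≤ B := hB ⟨n, rfl⟩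
    rwa [div_le_iff₀ (by positivity)] at h1
  have hB0 : 0 ≤ B := by
    have h1 := hB' 1
    simp only [Nat.cast_one, one_pow, pow_one] at h1
    linarith
  set D : ℝ := (k : ℝ) ^ (4 * k) * (4 * B) with hD
  have hD0 : 0 ≤ D := by positivity
  refine ⟨Real.sqrt D, Real.sqrt_nonneg _, fun N => ?_⟩
  set x : ℝ := (N : ℝ) + 1 with hx
  have hx0 : 0 < x := by positivity
  have h1 : (x ^ ((k : ℝ) / 2 + 1)) ^ 2 = x ^ (k + 2) := by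
    rw [← Real.rpow_natCast (x ^ ((k : ℝ) / 2 + 1)) 2, ← Real.rpow_mul hx0.le,
      ← Real.rpow_natCast x (k + 2)]
    congr 1
    push_cast
    ring
  have h2 : ((Nat.log 2 (N + 1) + 1 : ℕ) : ℝ) ^ (k ^ 2) ≤ 4 * B * x ^ 2 := by
    have h3 := hB' (Nat.log 2 (N + 1) + 1)
    have h4 : ((2 : ℕ) ^ Nat.log 2 (N + 1) : ℕ) ≤ N + 1 := Nat.pow_log_le_self 2 (by omega)
    have h5 : (2 : ℝ) ^ Nat.log 2 (N + 1) ≤ x := by
      have : (((2 : ℕ) ^ Nat.log 2 (N + 1) : ℕ) : ℝ) ≤ ((N + 1 : ℕ) : ℝ) := by exact_mod_cast h4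
      push_cast at this
      exact this
    have h6 : (4 : ℝ) ^ Nat.log 2 (N + 1) ≤ x ^ 2 := by
      have h7 : (4 : ℝ) ^ Nat.log 2 (N + 1) = ((2 : ℝ) ^ Nat.log 2 (N + 1)) ^ 2 := by
        rw [← pow_mul, mul_comm, pow_mul]
        norm_num
      rw [h7]
      exact pow_le_pow_left₀ (by positivity) h5 2
    calc ((Nat.log 2 (N + 1) + 1 : ℕ) : ℝ) ^ (k ^ 2) ≤ B * 4 ^ (Nat.log 2 (N + 1) + 1) := h3
      _ = 4 * B * 4 ^ Nat.log 2 (N + 1) := by rw [pow_succ]; ring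
      _ ≤ 4 * B * x ^ 2 := mul_le_mul_of_nonneg_left h6 (by positivity)
  have h3 : ((Nat.sqrt (k ^ (4 * k) * ((N + 1) * (Nat.log 2 (N + 1) + 1) ^ k) ^ k) : ℕ) : ℝ) ^ 2 ≤
      (Real.sqrt D * x ^ ((k : ℝ) / 2 + 1)) ^ 2 := by
    have h4 := Nat.sqrt_le' (k ^ (4 * k) * ((N + 1) * (Nat.log 2 (N + 1) + 1) ^ k) ^ k)
    have h5 : ((Nat.sqrt (k ^ (4 * k) * ((N + 1) * (Nat.log 2 (N + 1) + 1) ^ k) ^ k) : ℕ) : ℝ) ^ 2
        ≤ ((k ^ (4 * k) * ((N + 1) * (Nat.log 2 (N + 1) + 1) ^ k) ^ k : ℕ) : ℝ) := by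
      exact_mod_cast h4
    refine h5.trans ?_
    rw [mul_pow (Real.sqrt D), h1, Real.sq_sqrt hD0]
    have h6 : ((k ^ (4 * k) * ((N + 1) * (Nat.log 2 (N + 1) + 1) ^ k) ^ k : ℕ) : ℝ) =
        (k : ℝ) ^ (4 * k) * (x ^ k * ((Nat.log 2 (N + 1) + 1 : ℕ) : ℝ) ^ (k ^ 2)) := by
      push_cast
      rw [mul_pow, ← pow_mul, ← pow_two]
    rw [h6]
    calc (k : ℝ) ^ (4 * k) * (x ^ k * ((Nat.log 2 (N + 1) + 1 : ℕ) : ℝ) ^ (k ^ 2))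
        ≤ (k : ℝ) ^ (4 * k) * (x ^ k * (4 * B * x ^ 2)) := by gcongr
      _ = D * x ^ (k + 2) := by rw [hD, pow_add]; ring
  exact (pow_le_pow_iff_left₀ (by positivity) (by positivity) two_ne_zero).1 h3

end Pool.Agent.C4U.H98
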